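import Pool.Agent.helper17.MLG.Spec

/-!
# Row CHN of project mlg: the chain
-/

set_option autoImplicit false

namespace Pool.Agent.MLG

open MeasureTheory Set Filter Topology Module
open scoped ENNReal ContDiff

section

variable {V : Type} [NormedAddCommGroup V] [InnerProductSpace ℝ V] [FiniteDimensional ℝ V] [MeasurableSpace V]
  [BorelSpace V] [Group V]

private theorem CHN_nz (m u : V → ℝ) (x : V) (h : cv m u x ≠ 0) : ∃ g, m g ≠ 0 ∧ u (g⁻¹ * x) ≠ 0 := by
  by_contra hc
  push Not at hc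
  apply h
  unfold cv
  have : (fun g => m g * u (g⁻¹ * x)) = fun _ => 0 := by
    funext g
    by_cases hg : m g = 0
    · rw [hg, zero_mul]
    · rw [hc g hg, mul_zero]
  rw [this, integral_zero]

private theorem CHN_one (m u : V → ℝ) (hm : Mol m) (x : V) (h : ∀ g, m g ≠ 0 → u (g⁻¹ * x) = 1) : cv m u x = 1 := by
  unfold cv
  have : (fun g => m g * u (g⁻¹ * x)) = m := by
    funext g
    by_cases hg : m g = 0
    · rw [hg, zero_mul]
    · rw [h g hg, mul_one]
  rw [this]
  exact hm.int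

/-- The integral of the volumes of the superlevel sets. -/
private theorem CHN_lay (u : V → ℝ) (hu : IsU u) :
    ∫⁻ t in Ioo (0 : ℝ) 1, vol V {x | t < u x} = ∫⁻ x, ENNReal.ofReal (u x) ∂(vol V) := by
  rw [lintegral_eq_lintegral_meas_lt (vol V) (Eventually.of_forall hu.nonneg) hu.meas.aemeasurable]
  have h1 : Ioi (0 : ℝ) = Ioo 0 1 ∪ Ici 1 := by
    rw [Ioo_union_Ici_eq_Ioi (by norm_num)]
  rw [h1, lintegral_union measurableSet_Ici (by
    rw [Set.disjoint_left]
    intro t ht ht2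
    exact absurd ht.2 (not_lt.mpr ht2))]
  have h2 : ∫⁻ t in Ici (1 : ℝ), vol V {x | t < u x} = 0 := by
    rw [setLIntegral_congr_fun (g := fun _ => 0) measurableSet_Ici]
    · simp
    · intro t ht
      have : {x | t < u x} = ∅ := by
        ext x
        simp only [mem_ofPred_eq, mem_empty_iff_false, iff_false, not_lt]
        exact le_trans (hu.le_one x) ht
      simp only [this, measure_empty]
  rw [h2, add_zero]

end

theorem CHN (hCON : CON_stmt) (hEXI : EXI_stmt) (hSUP : SUP_stmt) (hTHK : THK_stmt) (hCSM : CSM_stmt) (hCTV : CTV_stmt) (hCVI : CVI_stmt) (hMOL : MOL_stmt) (hTVS : TVS_stmt) (hCOA : COA_stmt) (hCGR : CGR_stmt) (hPER : PER_stmt) (hMES : MES_stmt) (hGRR : GRR_stmt) : CHN_stmt := by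
  intro V _ _ _ _ _ _ hV hn a b c L ha hab hIp
  have := top hV
  have hH : (vol V).IsHaarMeasure := (hMES V hV).1
  obtain ⟨-, -, hcon3⟩ := hCON V hV hn
  obtain ⟨v, hv⟩ : ∃ v, v = (a + b) / 2 := ⟨_, rfl⟩
  have hav : a < v := by rw [hv]; linarith
  have hvb : v < b := by rw [hv]; linarith
  have hv0 : 0 < v := by linarith
  obtain ⟨E, hE1, hE2, hE3⟩ := hEXI V hV hn v hv0
  obtain ⟨S, O, hS, hO, hOS, -, hSO, hSE⟩ := hSUP V hV hn E v hv0 hE1 hE2 hE3
  obtain ⟨p1, p2, -, -, -⟩ := hPER V hV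
  have hSm : MeasurableSet S := hS.isClosed.measurableSet
  have hvS : vol V S = ENNReal.ofReal v := by rw [measure_congr hSE, hE2]
  have hpS : per S = ENNReal.ofReal (c + L * v) := by
    rw [p2 S E hSE, hE3, hcon3 v hv0, hIp v ⟨hav.le, hvb.le⟩]
  obtain ⟨B, hB, hB1, hB2⟩ := hTHK V hV S O (ENNReal.ofReal a) (ENNReal.ofReal b) hS hO hOS hSO
    (by rw [hvS]; exact (ENNReal.ofReal_lt_ofReal_iff hv0).mpr hav)
    (by rw [hvS]; exact (ENNReal.ofReal_lt_ofReal_iff (by linarith)).mpr hvb)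
  obtain ⟨B', hB', hBB⟩ := exists_nhds_one_split hB
  obtain ⟨m, hm, hmB, hm1⟩ := hMOL V hV B' hB'
  have hmB' : ∀ g, m g ≠ 0 → g ∈ B' := fun g hg => hmB (subset_tsupport m hg)
  have hSU : IsU (ind S) := by
    refine ⟨measurable_const.indicator hSm, fun x => ?_, fun x => ?_⟩
    · exact Set.indicator_nonneg (fun _ _ => zero_le_one) x
    · exact Set.indicator_le_self' (fun _ _ => zero_le_one) x
  obtain ⟨h, hh⟩ : ∃ h, h = cv m (ind S) := ⟨_, rfl⟩
  obtain ⟨u, hu⟩ : ∃ u, u = cv m h := ⟨_, rfl⟩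
  have hh12 := hCSM V hV m (ind S) hm hSU
  rw [← hh] at hh12
  obtain ⟨hh1, hh2⟩ := hh12
  have hu12 := hCSM V hV m h hm hh2
  rw [← hu] at hu12
  obtain ⟨hu1, hu2⟩ := hu12
  have hindS : ∀ x, ind S x ≠ 0 → x ∈ S := fun x hx => by
    by_contra hc
    exact hx (Set.indicator_of_notMem hc _)
  have hcs : HasCompactSupport h := by
    apply HasCompactSupport.intro ((hm.supp : IsCompact (tsupport m)).mul hS)
    intro x hx
    by_contra hc
    rw [hh] at hc
    obtain ⟨g, hg1, hg2⟩ := CHN_nz m (ind S) x hc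
    apply hx
    exact ⟨g, subset_tsupport m hg1, g⁻¹ * x, hindS _ hg2, mul_inv_cancel_left g x⟩
  -- the superlevel sets
  have hsub1 : ∀ t : ℝ, t < 1 → {x : V | ∀ g ∈ B, g⁻¹ * x ∈ S} ⊆ {x | t < u x} := by
    intro t ht x hx
    have : u x = 1 := by
      rw [hu]
      apply CHN_one m h hm
      intro g hg
      rw [hh]
      apply CHN_one m (ind S) hm
      intro g2 hg2
      apply Set.indicator_of_mem
      have h1 := hx (g * g2) (hBB g (hmB' g hg) g2 (hmB' g2 hg2))
      rw [mul_inv_rev, mul_assoc] at h1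
      exact h1
    rw [mem_ofPred_eq, this]
    exact ht
  have hsub2 : ∀ t : ℝ, 0 < t → {x | t < u x} ⊆ {x : V | ∃ g ∈ B, g⁻¹ * x ∈ S} := by
    intro t ht x hx
    rw [mem_ofPred_eq] at hx
    have h1 : u x ≠ 0 := by linarith
    rw [hu] at h1
    obtain ⟨g, hg1, hg2⟩ := CHN_nz m h x h1
    rw [hh] at hg2
    obtain ⟨g2, hg3, hg4⟩ := CHN_nz m (ind S) _ hg2
    refine ⟨g * g2, hBB g (hmB' g hg1) g2 (hmB' g2 hg3), ?_⟩
    rw [mul_inv_rev, mul_assoc]
    exact hindS _ hg4
  have hy1 : ∀ t : ℝ, t < 1 → ENNReal.ofReal a < vol V {x | t < u x} :=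
    fun t ht => lt_of_lt_of_le hB2 (measure_mono (hsub1 t ht))
  have hy2 : ∀ t : ℝ, 0 < t → vol V {x | t < u x} < ENNReal.ofReal b :=
    fun t ht => lt_of_le_of_lt (measure_mono (hsub2 t ht)) hB1
  have hYab : ∀ t ∈ Ioo (0 : ℝ) 1, a < (vol V {x | t < u x}).toReal ∧ (vol V {x | t < u x}).toReal < b := by
    intro t ht
    have h1 := hy1 t ht.2
    have h2 := hy2 t ht.1
    have hf : vol V {x | t < u x} ≠ ⊤ := (lt_trans h2 ENNReal.ofReal_lt_top).ne
    rw [← ENNReal.ofReal_toReal hf] at h1 h2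
    exact ⟨(ENNReal.ofReal_lt_ofReal_iff_of_nonneg ha.le).mp h1, (ENNReal.ofReal_lt_ofReal_iff (by linarith)).mp h2⟩
  have hpt : ∀ t ∈ Ioo (0 : ℝ) 1, ENNReal.ofReal (c + L * (vol V {x | t < u x}).toReal) ≤ per {x | t < u x} := by
    intro t ht
    obtain ⟨h1, h2⟩ := hYab t ht
    rw [← hIp _ ⟨h1.le, h2.le⟩, ← hcon3 _ (by linarith)]
    unfold prof
    refine iInf_le_of_le {x | t < u x} (iInf_le_of_le ?_ (iInf_le_of_le ?_ le_rfl))
    · exact measurableSet_lt measurable_const hu2.meas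
    · rw [ENNReal.ofReal_toReal]
      exact (lt_trans (hy2 t ht.1) ENNReal.ofReal_lt_top).ne
  have hcv1 : ∫⁻ x, ENNReal.ofReal (h x) ∂(vol V) = ENNReal.ofReal v := by
    rw [hh, hCVI V hV m (ind S) hm hSU]
    have : (fun x => ENNReal.ofReal (ind S x)) = S.indicator (fun _ => 1) := by
      funext x
      by_cases hx : x ∈ S
      · have h0 : ind S x = 1 := Set.indicator_of_mem hx _
        rw [Set.indicator_of_mem hx, h0, ENNReal.ofReal_one]
      · have h0 : ind S x = 0 := Set.indicator_of_notMem hx _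
        rw [Set.indicator_of_notMem hx, h0, ENNReal.ofReal_zero]
    rw [this, lintegral_indicator_const hSm, one_mul, hvS]
  have hcv2 : ∫⁻ t in Ioo (0 : ℝ) 1, vol V {x | t < u x} = ENNReal.ofReal v := by
    rw [CHN_lay u hu2, hu, hCVI V hV m h hm hh2, hcv1]
  have hanti : Antitone (fun t : ℝ => vol V {x | t < u x}) := by
    intro s t hst
    exact measure_mono fun x hx => lt_of_le_of_lt hst hx
  have hYint : Integrable (fun t : ℝ => (vol V {x | t < u x}).toReal) (volume.restrict (Ioo 0 1)) := by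
    apply integrable_toReal_of_lintegral_ne_top hanti.measurable.aemeasurable
    rw [hcv2]
    exact ENNReal.ofReal_ne_top
  have hYv : ∫ t in Ioo (0 : ℝ) 1, (vol V {x | t < u x}).toReal = v := by
    rw [integral_toReal hanti.measurable.aemeasurable, hcv2, ENNReal.toReal_ofReal hv0.le]
    rw [ae_restrict_iff' measurableSet_Ioo]
    exact Eventually.of_forall fun t ht => lt_trans (hy2 t ht.1) ENNReal.ofReal_lt_top
  have hcL : ENNReal.ofReal (c + L * v) ≤ ∫⁻ x, ‖gr u x‖ₑ ∂(vol V) := by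
    have h1 : ∫ t in Ioo (0 : ℝ) 1, (c + L * (vol V {x | t < u x}).toReal) = c + L * v := by
      rw [integral_add (integrable_const c) (hYint.const_mul L), integral_const_mul, hYv, setIntegral_const]
      simp
    have hint : Integrable (fun t : ℝ => c + L * (vol V {x | t < u x}).toReal) (volume.restrict (Ioo 0 1)) :=
      (integrable_const c).add (hYint.const_mul L)
    rw [← h1, ofReal_integral_eq_lintegral_ofReal hint]
    · refine le_trans ?_ (hCOA V hV u hu1 hu2)
      exact setLIntegral_mono' measurableSet_Ioo hpt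
    · rw [EventuallyLE, ae_restrict_iff' measurableSet_Ioo]
      refine Eventually.of_forall fun t ht => ?_
      obtain ⟨h1, h2⟩ := hYab t ht
      have h3 := hIp _ ⟨h1.le, h2.le⟩
      show 0 ≤ c + L * (vol V {x | t < u x}).toReal
      rw [← h3]
      exact ENNReal.toReal_nonneg
  -- the two sides
  obtain ⟨-, hgr2, -, -, -, -, hgr7, -⟩ := hGRR V hV
  have hgc : Continuous (gr h) := hgr2 h (hh1.of_le (by exact_mod_cast le_top))
  have hgs : HasCompactSupport (gr h) := hgr7 h hcs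
  obtain ⟨M0, hM0⟩ := hgs.exists_bound_of_continuous hgc
  obtain ⟨M, hM⟩ : ∃ M, M = max M0 1 := ⟨_, rfl⟩
  have hMpos : 0 < M := by rw [hM]; exact lt_of_lt_of_le one_pos (le_max_right _ _)
  have hMb : ∀ x, ‖gr h x‖ ≤ M := fun x => le_trans (hM0 x) (by rw [hM]; exact le_max_left _ _)
  obtain ⟨q, hq⟩ : ∃ q : V → ℝ, q = fun x => ‖gr h x‖ / M := ⟨_, rfl⟩
  have hqU : IsU q := by
    rw [hq]
    refine ⟨(hgc.norm.div_const M).measurable, fun x => by positivity, fun x => ?_⟩
    rw [div_le_one hMpos]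
    exact hMb x
  obtain ⟨hq1, hq2⟩ := hCSM V hV m q hm hqU
  have hR : ∀ x, ∫ g, m g * ‖gr h (g⁻¹ * x)‖ ∂(vol V) = M * cv m q x := by
    intro x
    unfold cv
    rw [← integral_const_mul]
    congr 1
    funext g
    rw [hq]
    field_simp
  have hN : ∀ x, ‖∫ g, m g • gr h (g⁻¹ * x) ∂(vol V)‖ = ‖gr u x‖ := by
    intro x
    rw [hu, hCGR V hV m h hm hh1 hcs x]
  have hNR : ∀ x, ‖gr u x‖ ≤ M * cv m q x := by
    intro x
    rw [← hN, ← hR]
    refine le_trans (norm_integral_le_integral_norm _) (le_of_eq ?_)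
    congr 1
    funext g
    rw [norm_smul, Real.norm_of_nonneg (hm.nonneg g)]
  have hRint : ∫⁻ x, ENNReal.ofReal (M * cv m q x) ∂(vol V) ≤ ENNReal.ofReal (c + L * v) := by
    have h1 : ∫⁻ x, ENNReal.ofReal (M * cv m q x) ∂(vol V) = ∫⁻ x, ‖gr h x‖ₑ ∂(vol V) := by
      have h2 : ∀ x, ENNReal.ofReal (M * cv m q x) = ENNReal.ofReal M * ENNReal.ofReal (cv m q x) := fun x =>
        ENNReal.ofReal_mul hMpos.le
      rw [lintegral_congr h2, lintegral_const_mul _ hq2.meas.ennreal_ofReal, hCVI V hV m q hm hqU,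
        ← lintegral_const_mul _ hqU.meas.ennreal_ofReal]
      apply lintegral_congr
      intro x
      rw [← ENNReal.ofReal_mul hMpos.le, hq, ← ofReal_norm]
      congr 1
      field_simp
    rw [h1, ← hTVS V hV h hh1, ← hpS, p1 S hSm, hh]
    exact hCTV V hV m (ind S) hm hSU
  have huc : Continuous (gr u) := hgr2 u (hu1.of_le (by exact_mod_cast le_top))
  have hae : (fun x => ENNReal.ofReal ‖gr u x‖) =ᵐ[vol V] fun x => ENNReal.ofReal (M * cv m q x) := by
    apply ae_eq_of_ae_le_of_lintegral_le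
    · exact Eventually.of_forall fun x => ENNReal.ofReal_le_ofReal (hNR x)
    · refine (lt_of_le_of_lt (lintegral_mono fun x => ENNReal.ofReal_le_ofReal (hNR x))
        (lt_of_le_of_lt hRint ENNReal.ofReal_lt_top)).ne
    · exact (hq2.meas.const_mul M).ennreal_ofReal.aemeasurable
    · refine le_trans hRint (le_trans hcL (le_of_eq ?_))
      apply lintegral_congr
      intro x
      rw [ofReal_norm]
  have heq : (fun x => ENNReal.ofReal ‖gr u x‖) = fun x => ENNReal.ofReal (M * cv m q x) := by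
    refine (Continuous.ae_eq_iff_eq (vol V) ?_ ?_).mp hae
    · exact ENNReal.continuous_ofReal.comp huc.norm
    · exact ENNReal.continuous_ofReal.comp (continuous_const.mul hq1.continuous)
  refine ⟨h, m, hh1, hcs, ?_, hm, hm1, fun x => ?_⟩
  · by_contra hc
    push Not at hc
    have h1 : ∫⁻ x, ENNReal.ofReal (h x) ∂(vol V) = 0 := by
      have : (fun x => ENNReal.ofReal (h x)) = fun _ => 0 := by
        funext x
        rw [hc x, ENNReal.ofReal_zero]
      rw [this, lintegral_zero]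
    rw [h1] at hcv1
    have := ENNReal.ofReal_eq_zero.mp hcv1.symm
    linarith
  · rw [hN, hR]
    have h1 := congrFun heq x
    exact (ENNReal.ofReal_eq_ofReal_iff (norm_nonneg _) (mul_nonneg hMpos.le (hq2.nonneg x))).mp h1

end Pool.Agent.MLG
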